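import Pool.Agent.Helper53.AE.GoalsB

/-!
# Packet AE-BND: bound for completely positive maps
-/

set_option autoImplicit false

open scoped ComplexOrder Topology ComplexStarModule

namespace Pool.Agent.Helper69.AE

open Pool.Agent.Helper53.AE

theorem norm_le_of_bounds (M : Type) [CStarAlgebra M] [PartialOrder M] [StarOrderedRing M] (y : M)
    (hy : IsSelfAdjoint y) (c : ℝ) (hc : 0 ≤ c) (h1 : y ≤ algebraMap ℝ M c)
    (h2 : -(algebraMap ℝ M c) ≤ y) : ‖y‖ ≤ c := by
  rcases subsingleton_or_nontrivial M with hM | hM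
  · rw [Subsingleton.elim y 0, norm_zero]
    exact hc
  · have h2' : algebraMap ℝ M (-c) ≤ y := by rwa [map_neg]
    rcases CStarAlgebra.norm_or_neg_norm_mem_spectrum (ha := hy) with h | h
    · exact (le_algebraMap_iff_spectrum_le hy).1 h1 _ h
    · have := (algebraMap_le_iff_le_spectrum hy).1 h2' _ h
      linarith

theorem t : S_BND := by
  intro N M _ _ κ hκ h1
  let _ := CStarAlgebra.spectralOrder N
  have _ := CStarAlgebra.spectralOrderedRing N
  let _ := CStarAlgebra.spectralOrder M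
  have _ := CStarAlgebra.spectralOrderedRing M
  have hpos : ∀ a : N, 0 ≤ a → 0 ≤ κ a := by
    intro a ha
    obtain ⟨z, rfl⟩ := CStarAlgebra.nonneg_iff_eq_star_mul_self.1 ha
    obtain ⟨r, W, -, hW⟩ := hκ 1 (fun _ => z)
    have hW0 : κ (star z * z) = ∑ j, star (W j 0) * W j 0 := hW 0 0
    rw [hW0]
    exact Finset.sum_nonneg fun j _ => star_mul_self_nonneg _
  have halgN : ∀ c : ℝ, algebraMap ℝ N c = (c : ℂ) • (1 : N) := fun c => by
    rw [Algebra.algebraMap_eq_smul_one, Complex.coe_smul]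
  have halgM : ∀ c : ℝ, algebraMap ℝ M c = (c : ℂ) • (1 : M) := fun c => by
    rw [Algebra.algebraMap_eq_smul_one, Complex.coe_smul]
  have hk1 : 0 ≤ κ 1 := hpos 1 zero_le_one
  have hk1' : κ 1 ≤ 1 := (CStarAlgebra.norm_le_one_iff_of_nonneg _ hk1).1 h1
  have hscale : ∀ c : ℝ, 0 ≤ c → κ (algebraMap ℝ N c) ≤ algebraMap ℝ M c := by
    intro c hc
    rw [halgN, halgM, map_smul, Complex.coe_smul, Complex.coe_smul]
    exact smul_le_smul_of_nonneg_left hk1' hc
  have hsa : ∀ x : N, IsSelfAdjoint x → ‖κ x‖ ≤ ‖x‖ := by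
    intro x hx
    have ha := hpos _ (sub_nonneg.2 hx.le_algebraMap_norm_self)
    have hb : 0 ≤ κ (x + algebraMap ℝ N ‖x‖) := by
      apply hpos
      have := hx.neg_algebraMap_norm_le_self
      rwa [neg_le_iff_add_nonneg] at this
    rw [map_sub, sub_nonneg] at ha
    rw [map_add] at hb
    have hs := hscale ‖x‖ (norm_nonneg x)
    have hksa : IsSelfAdjoint (κ (algebraMap ℝ N ‖x‖)) := by
      apply IsSelfAdjoint.of_nonneg
      apply hpos
      rw [Algebra.algebraMap_eq_smul_one]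
      exact smul_nonneg (norm_nonneg x) zero_le_one
    have hksx : IsSelfAdjoint (κ x) := by
      have h := (IsSelfAdjoint.of_nonneg hb).sub hksa
      rwa [add_sub_cancel_right] at h
    refine norm_le_of_bounds M _ hksx _ (norm_nonneg x) (ha.trans hs) ?_
    rw [neg_le_iff_add_nonneg]
    exact hb.trans (by gcongr)
  intro x
  have hx := realPart_add_I_smul_imaginaryPart x
  have h3 : κ x = κ (ℜ x : N) + Complex.I • κ (ℑ x : N) := by
    conv_lhs => rw [← hx]
    rw [map_add, map_smul]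
  rw [h3]
  have h4 := hsa _ (ℜ x).2
  have h5 := hsa _ (ℑ x).2
  have h6 : ‖(ℜ x : N)‖ ≤ ‖x‖ := realPart.norm_le x
  have h7 : ‖(ℑ x : N)‖ ≤ ‖x‖ := imaginaryPart.norm_le x
  calc ‖κ (ℜ x : N) + Complex.I • κ (ℑ x : N)‖
      ≤ ‖κ (ℜ x : N)‖ + ‖Complex.I • κ (ℑ x : N)‖ := norm_add_le _ _
    _ = ‖κ (ℜ x : N)‖ + ‖κ (ℑ x : N)‖ := by rw [norm_smul, Complex.norm_I, one_mul]
    _ ≤ 2 * ‖x‖ := by linarith

end Pool.Agent.Helper69.AE
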